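import Mathlib
import Pool.Agent.TH30.MT.Lim

/-!
# Forms killed by the logarithm
-/

set_option linter.unusedSectionVars false

namespace Pool.Agent.TH30.QF

open Filter Topology Finset Pool.Agent.TH30.MT

variable {ℓ : ℕ} [Fact ℓ.Prime] {n : ℕ} {κ : Type} [Fintype κ] [DecidableEq κ]

/-- The coefficients of the form are bounded. -/
def Fb (c : ℝ) (φ : MultilinearMap ℚ_[ℓ] (fun _ : κ => Fin n → ℚ_[ℓ]) ℚ_[ℓ]) : Prop :=
  ∀ r : κ → Fin n, ‖φ (fun l => Pi.single (r l) 1)‖ ≤ c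

theorem expand (φ : MultilinearMap ℚ_[ℓ] (fun _ : κ => Fin n → ℚ_[ℓ]) ℚ_[ℓ])
    (v : κ → Fin n → ℚ_[ℓ]) : φ v =
      ∑ r : κ → Fin n, (∏ l, v l (r l)) * φ (fun l => Pi.single (r l) 1) := by
  classical
  have e : v = fun l => ∑ i, v l i • (Pi.single i 1 : Fin n → ℚ_[ℓ]) := by
    funext l
    exact pi_eq_sum_univ' (v l) |>.trans (by
      refine sum_congr rfl fun i _ => ?_
      congr 1)
  conv_lhs => rw [e]
  rw [φ.map_sum]
  refine sum_congr rfl fun r _ => ?_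
  rw [φ.map_smul_univ, smul_eq_mul]

theorem norm_sum_le' {ι : Type} (S : Finset ι) (F : ι → ℚ_[ℓ]) {c : ℝ} (hc : 0 ≤ c)
    (h : ∀ i ∈ S, ‖F i‖ ≤ c) : ‖∑ i ∈ S, F i‖ ≤ c := by
  classical
  induction S using Finset.induction_on with
  | empty => rw [sum_empty, norm_zero]; exact hc
  | insert a S ha ih =>
    rw [sum_insert ha]
    exact (IsUltrametricDist.norm_add_le_max _ _).trans (max_le (h a (mem_insert_self _ _))
      (ih fun i hi => h i (mem_insert_of_mem hi)))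

theorem norm_prod_le_one {ι : Type} (S : Finset ι) (a : ι → ℚ_[ℓ]) (h : ∀ i ∈ S, ‖a i‖ ≤ 1) :
    ‖∏ i ∈ S, a i‖ ≤ 1 := by
  rw [norm_prod]
  exact Finset.prod_le_one (fun i _ => norm_nonneg _) h

theorem norm_prod_sub {ι : Type} (S : Finset ι) (a b : ι → ℚ_[ℓ]) {δ : ℝ} (hδ : 0 ≤ δ)
    (ha : ∀ i ∈ S, ‖a i‖ ≤ 1) (hb : ∀ i ∈ S, ‖b i‖ ≤ 1) (hab : ∀ i ∈ S, ‖a i - b i‖ ≤ δ) :
    ‖∏ i ∈ S, a i - ∏ i ∈ S, b i‖ ≤ δ := by
  classical
  induction S using Finset.induction_on with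
  | empty => rw [prod_empty, prod_empty, sub_self, norm_zero]; exact hδ
  | insert c S hc ih =>
    rw [prod_insert hc, prod_insert hc]
    have e : a c * ∏ i ∈ S, a i - b c * ∏ i ∈ S, b i =
        (a c - b c) * ∏ i ∈ S, a i + b c * (∏ i ∈ S, a i - ∏ i ∈ S, b i) := by ring
    rw [e]
    refine (IsUltrametricDist.norm_add_le_max _ _).trans (max_le ?_ ?_)
    · rw [norm_mul]
      calc ‖a c - b c‖ * ‖∏ i ∈ S, a i‖ ≤ δ * 1 :=
            mul_le_mul (hab c (mem_insert_self _ _))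
              (norm_prod_le_one S a fun i hi => ha i (mem_insert_of_mem hi)) (norm_nonneg _) hδ
        _ = δ := mul_one _
    · rw [norm_mul]
      calc ‖b c‖ * ‖∏ i ∈ S, a i - ∏ i ∈ S, b i‖ ≤ 1 * δ :=
            mul_le_mul (hb c (mem_insert_self _ _))
              (ih (fun i hi => ha i (mem_insert_of_mem hi)) (fun i hi => hb i (mem_insert_of_mem hi))
                fun i hi => hab i (mem_insert_of_mem hi)) (norm_nonneg _) zero_le_one
        _ = δ := one_mul _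

/-- The values of a form with bounded coefficients at nearby integral points. -/
theorem Fb.sub {c : ℝ} (hc : 0 ≤ c) {φ : MultilinearMap ℚ_[ℓ] (fun _ : κ => Fin n → ℚ_[ℓ]) ℚ_[ℓ]}
    (hφ : Fb c φ) (u v : κ → Fin n → ℚ_[ℓ]) {δ : ℝ} (hδ : 0 ≤ δ) (hu : ∀ l i, ‖u l i‖ ≤ 1)
    (hv : ∀ l i, ‖v l i‖ ≤ 1) (huv : ∀ l i, ‖u l i - v l i‖ ≤ δ) : ‖φ u - φ v‖ ≤ δ * c := by
  rw [expand φ u, expand φ v, ← sum_sub_distrib]
  refine norm_sum_le' _ _ (mul_nonneg hδ hc) fun r _ => ?_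
  rw [← sub_mul, norm_mul]
  exact mul_le_mul (norm_prod_sub _ _ _ hδ (fun l _ => hu l _) (fun l _ => hv l _)
    fun l _ => huv l _) (hφ r) (norm_nonneg _) hδ

/-- The transform of a form by a matrix. -/
noncomputable def tr (T : Matrix (Fin n) (Fin n) ℚ_[ℓ])
    (φ : MultilinearMap ℚ_[ℓ] (fun _ : κ => Fin n → ℚ_[ℓ]) ℚ_[ℓ]) :
    MultilinearMap ℚ_[ℓ] (fun _ : κ => Fin n → ℚ_[ℓ]) ℚ_[ℓ] :=
  φ.compLinearMap fun _ => T.mulVecLin

theorem tr_apply (T : Matrix (Fin n) (Fin n) ℚ_[ℓ])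
    (φ : MultilinearMap ℚ_[ℓ] (fun _ : κ => Fin n → ℚ_[ℓ]) ℚ_[ℓ]) (v : κ → Fin n → ℚ_[ℓ]) :
    tr T φ v = φ (fun l => T.mulVec (v l)) := rfl

variable {T : Matrix (Fin n) (Fin n) ℚ_[ℓ]} {x : ℚ_[ℓ]}

theorem norm_pow_sub {r : ℝ} (hr0 : 0 ≤ r) (hr1 : r ≤ 1) (hx : ‖x - 1‖ ≤ r) (j : ℕ) :
    ‖x ^ j - 1‖ ≤ r ∧ ‖x ^ j‖ ≤ 1 := by
  have h0 : Bd r ((x • (1 : Matrix (Fin 1) (Fin 1) ℚ_[ℓ])) - 1) := by
    intro i j
    have hi : i = j := Subsingleton.elim i j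
    subst hi
    simpa using hx
  obtain ⟨h1, h2⟩ := bd_pow hr0 hr1 h0 j
  have h3 := h1 0 0
  have h4 := h2 0 0
  rw [smul_pow, one_pow, Matrix.sub_apply, Matrix.smul_apply, Matrix.one_apply_eq, smul_eq_mul,
    mul_one] at h3
  rw [smul_pow, one_pow, Matrix.smul_apply, Matrix.one_apply_eq, smul_eq_mul, mul_one] at h4
  exact ⟨h3, h4⟩

/-- The difference quotient. -/
theorem form_prime (hT : Bd (li ℓ ^ 2) (T - 1)) (hx : ‖x - 1‖ ≤ li ℓ ^ 2)
    (φ : MultilinearMap ℚ_[ℓ] (fun _ : κ => Fin n → ℚ_[ℓ]) ℚ_[ℓ]) {r : ℝ}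
    (hc : Fb (li ℓ * r) (tr (T ^ ℓ) φ - x ^ ℓ • φ)) : Fb r (tr T φ - x • φ) := by
  have hl0 := li_pos (ℓ := ℓ)
  have hl1 := li_lt (ℓ := ℓ)
  have hl2 : (0 : ℝ) ≤ li ℓ ^ 2 := pow_nonneg hl0.le 2
  have hl3 : li ℓ ^ 2 ≤ 1 := pow_le_one₀ hl0.le hl1.le
  rcases isEmpty_or_nonempty (κ → Fin n) with hemp | hne
  · intro r
    exact (hemp.false r).elim
  set C := tr T φ - x • φ with hC
  obtain ⟨i₀, hmax⟩ := Finite.exists_max (fun i : κ → Fin n => ‖C (fun l => Pi.single (i l) 1)‖)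
  set c := ‖C (fun l => Pi.single (i₀ l) 1)‖ with hcdef
  have hCc : Fb c C := fun i => hmax i
  have hc0 : 0 ≤ c := norm_nonneg _
  have hCa : ∀ v, C v = φ (fun l => T.mulVec (v l)) - x * φ v := fun v => rfl
  -- the telescope
  have hform : ∀ (m : ℕ) (v : κ → Fin n → ℚ_[ℓ]), φ (fun l => (T ^ m).mulVec (v l)) -
      x ^ m * φ v = ∑ j ∈ range m, x ^ (m - 1 - j) * C (fun l => (T ^ j).mulVec (v l)) := by
    intro m v
    induction m with
    | zero => simp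
    | succ m ih =>
      rw [sum_range_succ]
      have e1 : ∑ j ∈ range m, x ^ (m + 1 - 1 - j) * C (fun l => (T ^ j).mulVec (v l)) =
          x * ∑ j ∈ range m, x ^ (m - 1 - j) * C (fun l => (T ^ j).mulVec (v l)) := by
        rw [mul_sum]
        refine sum_congr rfl fun j hj => ?_
        rw [mem_range] at hj
        have : m + 1 - 1 - j = m - 1 - j + 1 := by omega
        rw [this, pow_succ]
        ring
      rw [e1, ← ih, Nat.add_sub_cancel, Nat.sub_self, pow_zero, one_mul, hCa]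
      have e2 : (fun l => T.mulVec ((T ^ m).mulVec (v l))) = fun l => (T ^ (m + 1)).mulVec (v l) := by
        funext l
        rw [Matrix.mulVec_mulVec, ← pow_succ']
      rw [e2]
      ring
  have hcol : ∀ (A : Matrix (Fin n) (Fin n) ℚ_[ℓ]) (i j : Fin n),
      A.mulVec (Pi.single j 1) i = A i j := by
    intro A i j
    rw [Matrix.mulVec_single_one]
    rfl
  have hsum : ∀ i : κ → Fin n, ∀ j ∈ range ℓ,
      ‖x ^ (ℓ - 1 - j) * C (fun l => (T ^ j).mulVec (Pi.single (i l) 1)) -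
        C (fun l => Pi.single (i l) 1)‖ ≤ li ℓ ^ 2 * c := by
    intro i j _
    obtain ⟨h1, h2⟩ := bd_pow hl2 hl3 hT j
    obtain ⟨h3, h4⟩ := norm_pow_sub hl2 hl3 hx (ℓ - 1 - j)
    have e : x ^ (ℓ - 1 - j) * C (fun l => (T ^ j).mulVec (Pi.single (i l) 1)) -
        C (fun l => Pi.single (i l) 1) =
        x ^ (ℓ - 1 - j) * (C (fun l => (T ^ j).mulVec (Pi.single (i l) 1)) -
          C (fun l => Pi.single (i l) 1)) + (x ^ (ℓ - 1 - j) - 1) *
            C (fun l => Pi.single (i l) 1) := by ring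
    rw [e]
    refine (IsUltrametricDist.norm_add_le_max _ _).trans (max_le ?_ ?_)
    · rw [norm_mul]
      have h5 := Fb.sub hc0 hCc (fun l => (T ^ j).mulVec (Pi.single (i l) 1))
        (fun l => Pi.single (i l) 1) hl2 (fun l a => by
          rw [hcol]
          exact h2 _ _) (fun l a => by
          by_cases h : a = i l
          · subst h
            rw [Pi.single_eq_same, norm_one]
          · rw [Pi.single_eq_of_ne h, norm_zero]
            exact zero_le_one) (fun l a => by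
          have h6 := h1 a (i l)
          rw [Matrix.sub_apply] at h6
          have h7 : (Pi.single (i l) (1 : ℚ_[ℓ]) : Fin n → ℚ_[ℓ]) a =
              (1 : Matrix (Fin n) (Fin n) ℚ_[ℓ]) a (i l) := by
            rw [Matrix.one_apply, Pi.single_apply]
          rw [hcol, h7]
          exact h6)
      calc ‖x ^ (ℓ - 1 - j)‖ * _ ≤ 1 * (li ℓ ^ 2 * c) :=
            mul_le_mul h4 h5 (norm_nonneg _) zero_le_one
        _ = li ℓ ^ 2 * c := one_mul _
    · rw [norm_mul]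
      exact mul_le_mul h3 (hCc i) (norm_nonneg _) hl2
  -- compare the entries
  have hkey : (ℓ : ℚ_[ℓ]) * C (fun l => Pi.single (i₀ l) 1) =
      (tr (T ^ ℓ) φ - x ^ ℓ • φ) (fun l => Pi.single (i₀ l) 1) -
      ∑ j ∈ range ℓ, (x ^ (ℓ - 1 - j) * C (fun l => (T ^ j).mulVec (Pi.single (i₀ l) 1)) -
        C (fun l => Pi.single (i₀ l) 1)) := by
    have e1 : (tr (T ^ ℓ) φ - x ^ ℓ • φ) (fun l => Pi.single (i₀ l) 1) =
        φ (fun l => (T ^ ℓ).mulVec (Pi.single (i₀ l) 1)) -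
          x ^ ℓ * φ (fun l => Pi.single (i₀ l) 1) := rfl
    rw [e1, hform, sum_sub_distrib, sum_const, card_range, nsmul_eq_mul]
    abel
  have h5 : li ℓ * c ≤ max (li ℓ * r) (li ℓ ^ 2 * c) := by
    have h7 := congrArg norm hkey
    rw [norm_mul, Padic.norm_p] at h7
    change li ℓ * c = _ at h7
    rw [h7]
    rw [sub_eq_add_neg]
    refine (IsUltrametricDist.norm_add_le_max _ _).trans (max_le_max (hc i₀) ?_)
    rw [norm_neg]
    exact norm_sum_le' _ _ (mul_nonneg hl2 hc0) (hsum i₀)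
  have h8 : c ≤ r := by
    rcases le_max_iff.1 h5 with h9 | h9
    · exact le_of_mul_le_mul_left h9 hl0
    · have h10 : c = 0 := by
        by_contra hne
        have hc1 : 0 < c := lt_of_le_of_ne hc0 (Ne.symm hne)
        rw [sq, mul_assoc] at h9
        have h11 : c ≤ li ℓ * c := le_of_mul_le_mul_left h9 hl0
        have h12 : li ℓ * c < c := mul_lt_of_lt_one_left hc1 hl1
        exact absurd h11 (not_le.2 h12)
      have h11 : 0 ≤ li ℓ * r := (norm_nonneg _).trans (hc i₀)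
      rw [h10]
      exact nonneg_of_mul_nonneg_right h11 hl0
  exact fun i => (hCc i).trans h8

theorem form_pow (hT : Bd (li ℓ ^ 2) (T - 1)) (hx : ‖x - 1‖ ≤ li ℓ ^ 2)
    (φ : MultilinearMap ℚ_[ℓ] (fun _ : κ => Fin n → ℚ_[ℓ]) ℚ_[ℓ]) (k : ℕ) :
    ∀ {r : ℝ}, Fb (li ℓ ^ k * r) (tr (T ^ (ℓ ^ k)) φ - x ^ (ℓ ^ k) • φ) →
      Fb r (tr T φ - x • φ) := by
  have hl0 := (li_pos (ℓ := ℓ)).le
  have hl1 := (li_lt (ℓ := ℓ)).le
  induction k with
  | zero =>
    intro r hr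
    simp only [pow_zero, pow_one, one_mul] at hr
    exact hr
  | succ k ih =>
    intro r hr
    apply ih
    have h1 : Bd (li ℓ ^ 2) (T ^ (ℓ ^ k) - 1) :=
      (bd_pow_pow hT k).mono (mul_le_of_le_one_left (pow_nonneg hl0 2) (pow_le_one₀ hl0 hl1))
    have h2 : ‖x ^ (ℓ ^ k) - 1‖ ≤ li ℓ ^ 2 :=
      (norm_pow_sub (pow_nonneg hl0 2) (pow_le_one₀ hl0 hl1) hx _).1
    apply form_prime h1 h2
    rw [← pow_mul, ← pow_succ, ← pow_mul, ← pow_succ, ← mul_assoc, ← pow_succ']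
    exact hr

end Pool.Agent.TH30.QF
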