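import Mathlib
import Pool.Agent.TH30.QF.Form

/-!
# The logarithm and the forms
-/

set_option linter.unusedSectionVars false

namespace Pool.Agent.TH30.QF

open Filter Topology Finset Pool.Agent.TH30.MT

variable {ℓ : ℕ} [Fact ℓ.Prime] {n : ℕ}

/-- The pair `(Y₀, y₀)` is a logarithm of `(T, x)`. -/
structure IsLog (T : Matrix (Fin n) (Fin n) ℚ_[ℓ]) (x : ℚ_[ℓ]) (f : ℕ → ℕ)
    (Y₀ : Matrix (Fin n) (Fin n) ℚ_[ℓ]) (y₀ : ℚ_[ℓ]) : Prop where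
  mono : StrictMono f
  lim₁ : Tendsto (fun k => ((ℓ : ℚ_[ℓ]) ^ f k)⁻¹ • (T ^ (ℓ ^ f k) - 1)) atTop (𝓝 Y₀)
  lim₂ : Tendsto (fun k => ((ℓ : ℚ_[ℓ]) ^ f k)⁻¹ * (x ^ (ℓ ^ f k) - 1)) atTop (𝓝 y₀)

/-- The logarithm. -/
theorem exists_isLog (T : Matrix (Fin n) (Fin n) ℚ_[ℓ]) (x : ℚ_[ℓ]) (hT : Bd (li ℓ ^ 2) (T - 1))
    (hx : ‖x - 1‖ ≤ li ℓ ^ 2) : ∃ f Y₀ y₀, IsLog T x f Y₀ y₀ := by
  have hl0 := li_pos (ℓ := ℓ)
  have hl1 := li_lt (ℓ := ℓ)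
  have hle : li ℓ ^ 2 ≤ 1 := pow_le_one₀ hl0.le hl1.le
  have hnorm : ∀ k : ℕ, ‖((ℓ : ℚ_[ℓ]) ^ k)⁻¹‖ = (li ℓ ^ k)⁻¹ := by
    intro k
    rw [norm_inv, norm_pow, Padic.norm_p]
  set Y : ℕ → Matrix (Fin n) (Fin n) ℚ_[ℓ] := fun k => ((ℓ : ℚ_[ℓ]) ^ k)⁻¹ • (T ^ (ℓ ^ k) - 1)
    with hYd
  set y : ℕ → ℚ_[ℓ] := fun k => ((ℓ : ℚ_[ℓ]) ^ k)⁻¹ * (x ^ (ℓ ^ k) - 1) with hyd
  have hYb : ∀ k, Bd 1 (Y k) := by
    intro k
    have h1 := Bd.smul (bd_pow_pow hT k) ((ℓ : ℚ_[ℓ]) ^ k)⁻¹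
    refine h1.mono ?_
    rw [hnorm, ← mul_assoc, inv_mul_cancel₀ (pow_pos hl0 k).ne', one_mul]
    exact hle
  have hyb : ∀ k, ‖y k‖ ≤ 1 := by
    intro k
    have h0 : Bd (li ℓ ^ 2) ((x • (1 : Matrix (Fin 1) (Fin 1) ℚ_[ℓ])) - 1) := by
      intro i j
      have hi : i = j := Subsingleton.elim i j
      subst hi
      simpa using hx
    have h1 := Bd.smul (bd_pow_pow h0 k) ((ℓ : ℚ_[ℓ]) ^ k)⁻¹ 0 0
    rw [hnorm, ← mul_assoc, inv_mul_cancel₀ (pow_pos hl0 k).ne', one_mul] at h1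
    refine le_trans (le_of_eq ?_) (h1.trans hle)
    rw [smul_pow, one_pow, Matrix.smul_apply, Matrix.sub_apply, Matrix.smul_apply,
      Matrix.one_apply_eq, smul_eq_mul, smul_eq_mul, mul_one]
  -- a convergent subsequence
  obtain ⟨a, -, f, hf, hlim⟩ := (isCompact_closedBall
    (0 : (Fin n → Fin n → ℚ_[ℓ]) × ℚ_[ℓ]) 1).tendsto_subseq
    (x := fun k => ((fun i j => Y k i j : Fin n → Fin n → ℚ_[ℓ]), y k)) (by
      intro k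
      rw [mem_closedBall_zero_iff, Prod.norm_def]
      refine max_le ?_ (hyb k)
      rw [pi_norm_le_iff_of_nonneg zero_le_one]
      intro i
      rw [pi_norm_le_iff_of_nonneg zero_le_one]
      intro j
      exact hYb k i j)
  exact ⟨f, Matrix.of a.1, a.2, hf, (continuous_fst.tendsto _).comp hlim,
    (continuous_snd.tendsto _).comp hlim⟩

variable {T : Matrix (Fin n) (Fin n) ℚ_[ℓ]} {x : ℚ_[ℓ]} {f : ℕ → ℕ}
  {Y₀ : Matrix (Fin n) (Fin n) ℚ_[ℓ]} {y₀ : ℚ_[ℓ]}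

theorem IsLog.t0 (h : IsLog T x f Y₀ y₀) : Tendsto (fun k => (ℓ : ℚ_[ℓ]) ^ f k) atTop (𝓝 0) := by
  have h1 : Tendsto (fun k => (ℓ : ℚ_[ℓ]) ^ k) atTop (𝓝 0) := by
    apply tendsto_pow_atTop_nhds_zero_of_norm_lt_one
    rw [Padic.norm_p]
    exact li_lt
  exact h1.comp h.mono.tendsto_atTop

theorem pow_ne (k : ℕ) : (ℓ : ℚ_[ℓ]) ^ k ≠ 0 :=
  pow_ne_zero _ (by exact_mod_cast (Fact.out : ℓ.Prime).ne_zero)

variable {κ : Type} [Fintype κ] [DecidableEq κ]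

/-- The first order term. -/
theorem IsLog.first (h : IsLog T x f Y₀ y₀)
    (φ : MultilinearMap ℚ_[ℓ] (fun _ : κ => Fin n → ℚ_[ℓ]) ℚ_[ℓ]) (N M : ℕ)
    (v : κ → Fin n → ℚ_[ℓ]) :
    Tendsto (fun k => ((ℓ : ℚ_[ℓ]) ^ f k)⁻¹ * (φ (fun l => (T ^ (N * ℓ ^ f k)).mulVec (v l)) -
      x ^ (M * ℓ ^ f k) * φ v)) atTop (𝓝 ((N : ℚ_[ℓ]) *
        ∑ j, φ (Function.update v j (Y₀.mulVec (v j))) - M * y₀ * φ v)) := by
  have ht : ∀ k, (ℓ : ℚ_[ℓ]) ^ f k ≠ 0 := fun k => pow_ne _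
  let φc : ContinuousMultilinearMap ℚ_[ℓ] (fun _ : κ => Fin n → ℚ_[ℓ]) ℚ_[ℓ] :=
    ⟨φ, continuous_form φ⟩
  have hD : Tendsto (fun k => ((ℓ : ℚ_[ℓ]) ^ f k)⁻¹ • ((T ^ ℓ ^ f k) ^ N - 1)) atTop
      (𝓝 ((N : ℚ_[ℓ]) • Y₀)) := by
    refine tendsto_quot (fun k => T ^ ℓ ^ f k)
      (fun k => ((ℓ : ℚ_[ℓ]) ^ f k)⁻¹ • (T ^ (ℓ ^ f k) - 1)) _ (fun k => (ℓ : ℚ_[ℓ]) ^ f k)
      ht h.t0 (fun k => ?_) h.lim₁ N
    rw [smul_smul, mul_inv_cancel₀ (ht k), one_smul, add_sub_cancel]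
  have hd : Tendsto (fun k => ((ℓ : ℚ_[ℓ]) ^ f k)⁻¹ • ((x ^ ℓ ^ f k) ^ M - 1)) atTop
      (𝓝 ((M : ℚ_[ℓ]) • y₀)) := by
    refine tendsto_quot (fun k => x ^ ℓ ^ f k)
      (fun k => ((ℓ : ℚ_[ℓ]) ^ f k)⁻¹ * (x ^ (ℓ ^ f k) - 1)) _ (fun k => (ℓ : ℚ_[ℓ]) ^ f k)
      ht h.t0 (fun k => ?_) h.lim₂ M
    rw [smul_eq_mul, ← mul_assoc, mul_inv_cancel₀ (ht k), one_mul, add_sub_cancel]
  have hcd : Tendsto (fun k => ((ℓ : ℚ_[ℓ]) ^ f k)⁻¹ •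
      ((fun l => ((T ^ ℓ ^ f k) ^ N).mulVec (v l) - v l) : κ → Fin n → ℚ_[ℓ])) atTop
      (𝓝 (fun l => ((N : ℚ_[ℓ]) • Y₀).mulVec (v l))) := by
    rw [tendsto_pi_nhds]
    intro l
    have h1 : Tendsto (fun k => (((ℓ : ℚ_[ℓ]) ^ f k)⁻¹ • ((T ^ ℓ ^ f k) ^ N - 1)).mulVec (v l))
        atTop (𝓝 (((N : ℚ_[ℓ]) • Y₀).mulVec (v l))) :=
      ((Continuous.matrix_mulVec continuous_id continuous_const).tendsto _).comp hD
    refine h1.congr fun k => ?_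
    rw [Pi.smul_apply, Matrix.smul_mulVec, Matrix.sub_mulVec, Matrix.one_mulVec]
  have hdz : Tendsto (fun k => ((fun l => ((T ^ ℓ ^ f k) ^ N).mulVec (v l) - v l) :
      κ → Fin n → ℚ_[ℓ])) atTop (𝓝 0) := by
    have h1 := h.t0.smul hcd
    rw [zero_smul] at h1
    refine h1.congr fun k => ?_
    rw [smul_smul, mul_inv_cancel₀ (ht k), one_smul]
  have hder := (φc.hasFDerivAt v).hasFDerivWithinAt (s := Set.univ)
  have hL := hder.lim hdz (Eventually.of_forall fun _ => Set.mem_univ _) hcd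
  have hL' : Tendsto (fun k => ((ℓ : ℚ_[ℓ]) ^ f k)⁻¹ *
      (φ (fun l => (T ^ (N * ℓ ^ f k)).mulVec (v l)) - φ v)) atTop (𝓝 ((N : ℚ_[ℓ]) *
        ∑ j, φ (Function.update v j (Y₀.mulVec (v j))))) := by
    have e1 : (φc.linearDeriv v) (fun l => ((N : ℚ_[ℓ]) • Y₀).mulVec (v l)) = (N : ℚ_[ℓ]) *
        ∑ j, φ (Function.update v j (Y₀.mulVec (v j))) := by
      rw [ContinuousMultilinearMap.linearDeriv_apply, mul_sum]
      refine sum_congr rfl fun j _ => ?_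
      change φ _ = _
      rw [Matrix.smul_mulVec, φ.map_update_smul, smul_eq_mul]
    rw [← e1]
    refine hL.congr fun k => ?_
    have h1 : (v + (fun l => ((T ^ ℓ ^ f k) ^ N).mulVec (v l) - v l)) =
        fun l => (T ^ (N * ℓ ^ f k)).mulVec (v l) := by
      funext l
      rw [Pi.add_apply, add_sub_cancel, ← pow_mul, mul_comm]
    rw [h1]
    rfl
  have hR : Tendsto (fun k => ((ℓ : ℚ_[ℓ]) ^ f k)⁻¹ * (x ^ (M * ℓ ^ f k) * φ v - φ v)) atTop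
      (𝓝 (M * y₀ * φ v)) := by
    refine (hd.mul_const (φ v)).congr fun k => ?_
    rw [← pow_mul, mul_comm (ℓ ^ f k) M, smul_eq_mul]
    ring
  refine (hL'.sub hR).congr fun k => ?_
  ring

/-- If the forms are invariant then they are killed. -/
theorem IsLog.killed (h : IsLog T x f Y₀ y₀)
    (φ : MultilinearMap ℚ_[ℓ] (fun _ : κ => Fin n → ℚ_[ℓ]) ℚ_[ℓ]) (N M : ℕ)
    (hφ : ∀ (j : ℕ) (v : κ → Fin n → ℚ_[ℓ]),
      φ (fun l => (T ^ (N * j)).mulVec (v l)) = x ^ (M * j) * φ v) (v : κ → Fin n → ℚ_[ℓ]) :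
    (N : ℚ_[ℓ]) * ∑ j, φ (Function.update v j (Y₀.mulVec (v j))) = M * y₀ * φ v := by
  have h1 := h.first φ N M v
  have h2 : (fun k => ((ℓ : ℚ_[ℓ]) ^ f k)⁻¹ * (φ (fun l => (T ^ (N * ℓ ^ f k)).mulVec (v l)) -
      x ^ (M * ℓ ^ f k) * φ v)) = fun _ => (0 : ℚ_[ℓ]) := by
    funext k
    rw [hφ, sub_self, mul_zero]
  rw [h2] at h1
  exact sub_eq_zero.1 (tendsto_nhds_unique h1 tendsto_const_nhds)

/-- If the forms are killed then they are invariant. -/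
theorem IsLog.inv (h : IsLog T x f Y₀ y₀) (hT : Bd (li ℓ ^ 2) (T - 1)) (hx : ‖x - 1‖ ≤ li ℓ ^ 2)
    (φ : MultilinearMap ℚ_[ℓ] (fun _ : κ => Fin n → ℚ_[ℓ]) ℚ_[ℓ]) (m : ℕ)
    (hφ : ∀ v : κ → Fin n → ℚ_[ℓ],
      ∑ j, φ (Function.update v j (Y₀.mulVec (v j))) = m * y₀ * φ v) (v : κ → Fin n → ℚ_[ℓ]) :
    φ (fun l => T.mulVec (v l)) = x ^ m * φ v := by
  have hl0 := li_pos (ℓ := ℓ)
  have hl1 := li_lt (ℓ := ℓ)
  have hxm : ‖x ^ m - 1‖ ≤ li ℓ ^ 2 :=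
    (norm_pow_sub (pow_nonneg hl0.le 2) (pow_le_one₀ hl0.le hl1.le) hx m).1
  have h3 : ∀ r : ℝ, 0 < r → Fb r (tr T φ - x ^ m • φ) := by
    intro r hr
    have h4 : ∀ᶠ k in atTop, ∀ i : κ → Fin n, ‖((ℓ : ℚ_[ℓ]) ^ f k)⁻¹ *
        (φ (fun l => (T ^ (1 * ℓ ^ f k)).mulVec (Pi.single (i l) 1)) -
          x ^ (m * ℓ ^ f k) * φ (fun l => Pi.single (i l) 1))‖ ≤ r := by
      refine eventually_all.2 fun i => ?_
      have h6 := h.first φ 1 m (fun l => Pi.single (i l) 1)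
      rw [hφ, Nat.cast_one, one_mul, sub_self] at h6
      have h8 := h6.norm
      rw [norm_zero] at h8
      exact (h8.eventually (gt_mem_nhds hr)).mono fun k hk => hk.le
    obtain ⟨k, hk⟩ := h4.exists
    apply form_pow hT hxm φ (f k)
    intro i
    have h5 := hk i
    rw [norm_mul, norm_inv, norm_pow, Padic.norm_p, inv_mul_le_iff₀ (pow_pos hl0 _), one_mul] at h5
    rw [← pow_mul]
    exact h5
  have h4 : ∀ i : κ → Fin n, (tr T φ - x ^ m • φ) (fun l => Pi.single (i l) 1) = 0 := by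
    intro i
    by_contra hne
    have h5 : 0 < ‖(tr T φ - x ^ m • φ) (fun l => Pi.single (i l) 1)‖ := norm_pos_iff.2 hne
    have h6 := h3 _ (half_pos h5) i
    linarith
  have h5 : (tr T φ - x ^ m • φ) v = 0 := by
    rw [expand]
    exact sum_eq_zero fun i _ => by rw [h4, mul_zero]
  exact sub_eq_zero.1 h5

end Pool.Agent.TH30.QF
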