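import Mathlib
import Pool.Agent.TH30.QF.Log
import Pool.Agent.TH30.MT.Comm
import Pool.Agent.H204R3.GP.MTDefs

/-!
# The forms killed by the Lie algebra are Tate classes
-/

set_option linter.unusedSectionVars false

namespace Pool.Agent.TH30.QF

open Filter Topology Finset Module Pool.Agent.H204R3.SP Pool.Agent.H204R3.GP Pool.Agent.TH30.MT

variable {ℓ : ℕ} [Fact ℓ.Prime] {n : ℕ}

section

variable {V : Type} [AddCommGroup V] [Module ℚ_[ℓ] V] (b : Basis (Fin n) ℚ_[ℓ] V)

/-- the matrix of an endomorphism -/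
noncomputable abbrev mat : Module.End ℚ_[ℓ] V ≃ₐ[ℚ_[ℓ]] Matrix (Fin n) (Fin n) ℚ_[ℓ] :=
  LinearMap.toMatrixAlgEquiv b

theorem mat_act (A : Module.End ℚ_[ℓ] V) (w : Fin n → ℚ_[ℓ]) :
    b.equivFun.symm ((mat b A).mulVec w) = A (b.equivFun.symm w) := by
  apply b.equivFun.injective
  rw [LinearEquiv.apply_symm_apply]
  have h3 : (mat b A).mulVec (b.repr (b.equivFun.symm w)) = b.repr (A (b.equivFun.symm w)) :=
    LinearMap.toMatrix_mulVec_repr b b A (b.equivFun.symm w)
  have h4 : (b.repr (b.equivFun.symm w) : Fin n → ℚ_[ℓ]) = w := by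
    rw [← Basis.equivFun_apply, LinearEquiv.apply_symm_apply]
  rw [h4] at h3
  rw [Basis.equivFun_apply]
  exact h3

variable {κ : Type}

/-- the form in coordinates -/
noncomputable def coordForm (φ : MultilinearMap ℚ_[ℓ] (fun _ : κ => V) ℚ_[ℓ]) :
    MultilinearMap ℚ_[ℓ] (fun _ : κ => Fin n → ℚ_[ℓ]) ℚ_[ℓ] :=
  φ.compLinearMap fun _ => b.equivFun.symm.toLinearMap

theorem coordForm_apply (φ : MultilinearMap ℚ_[ℓ] (fun _ : κ => V) ℚ_[ℓ])
    (u : κ → Fin n → ℚ_[ℓ]) : coordForm b φ u = φ (fun l => b.equivFun.symm (u l)) := rfl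

theorem coordForm_mat (φ : MultilinearMap ℚ_[ℓ] (fun _ : κ => V) ℚ_[ℓ]) (A : Module.End ℚ_[ℓ] V)
    (u : κ → Fin n → ℚ_[ℓ]) : coordForm b φ (fun l => (mat b A).mulVec (u l)) =
      φ (fun l => A (b.equivFun.symm (u l))) := by
  rw [coordForm_apply]
  congr 1
  funext l
  rw [mat_act]

variable [Fintype κ] [DecidableEq κ]

theorem coordForm_update (φ : MultilinearMap ℚ_[ℓ] (fun _ : κ => V) ℚ_[ℓ])
    (A : Module.End ℚ_[ℓ] V) (u : κ → Fin n → ℚ_[ℓ]) (j : κ) :
    coordForm b φ (Function.update u j ((mat b A).mulVec (u j))) =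
      φ (Function.update (fun l => b.equivFun.symm (u l)) j (A (b.equivFun.symm (u j)))) := by
  rw [coordForm_apply]
  congr 1
  funext l
  by_cases hl : l = j
  · subst hl
    rw [Function.update_self, Function.update_self, mat_act]
  · rw [Function.update_of_ne hl, Function.update_of_ne hl]

end

variable {V : Type} [AddCommGroup V] [Module ℚ_[ℓ] V] (b : Basis (Fin n) ℚ_[ℓ] V)
    {Γ : Type} [Group Γ] (ρ : Representation ℚ_[ℓ] Γ V) (χ : Γ →* ℚ_[ℓ])

/-- The logarithm of an element near one gives an element of the Lie algebra. -/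
theorem log_mem (s : Γ) {f : ℕ → ℕ} {Y : Module.End ℚ_[ℓ] V} {y : ℚ_[ℓ]}
    (h : IsLog (mat b (ρ s)) (χ s) f (mat b Y) y) :
    Y - (y / 2) • (1 : Module.End ℚ_[ℓ] V) ∈ lieT ρ χ := by
  rintro m φ ⟨Δ', hΔ', hinv⟩ v
  obtain ⟨N, hN0, -, hN⟩ := Subgroup.exists_pow_mem_of_index_ne_zero hΔ'.index_ne_zero s
  have h3 := h.killed (coordForm b φ) N (N * m) (by
    intro j u
    have e2 : mat b (ρ s) ^ (N * j) = mat b (ρ (s ^ (N * j))) := by
      rw [← map_pow, ← map_pow]
    rw [e2, coordForm_mat, coordForm_apply]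
    have e3 : s ^ (N * j) ∈ Δ' := by
      rw [pow_mul]
      exact Δ'.pow_mem hN j
    rw [hinv _ e3, map_pow, ← pow_mul]
    congr 2
    ring) (fun l => b.equivFun (v l))
  simp only [coordForm_update] at h3
  simp only [coordForm_apply, LinearEquiv.symm_apply_apply] at h3
  have hN1 : (N : ℚ_[ℓ]) ≠ 0 := by exact_mod_cast hN0.ne'
  have h6 : ∑ j, φ (Function.update v j (Y (v j))) = m * y * φ v := by
    apply mul_left_cancel₀ hN1
    rw [h3]
    push_cast
    ring
  have h7 : ∀ j, φ (Function.update v j ((Y - (y / 2) • (1 : Module.End ℚ_[ℓ] V)) (v j))) =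
      φ (Function.update v j (Y (v j))) - y / 2 * φ v := by
    intro j
    rw [LinearMap.sub_apply, LinearMap.smul_apply, Module.End.one_apply,
      MultilinearMap.map_update_sub, MultilinearMap.map_update_smul, Function.update_eq_self,
      smul_eq_mul]
  rw [Finset.sum_congr rfl fun j _ => h7 j, Finset.sum_sub_distrib, h6, Finset.sum_const,
    Finset.card_univ, Fintype.card_prod, Fintype.card_fin, Fintype.card_fin, nsmul_eq_mul]
  push_cast
  ring

variable [TopologicalSpace Γ] [IsTopologicalGroup Γ] [CompactSpace Γ]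
    (hρ : ∀ (v : V) (f : V →ₗ[ℚ_[ℓ]] ℚ_[ℓ]), Continuous fun s => f (ρ s v)) (hχ : Continuous χ)

include b hρ hχ in
/-- The forms killed by the Lie algebra are Tate classes. -/
theorem tate_of_kills {m : ℕ} (φ : MultilinearMap ℚ_[ℓ] (fun _ : Fin m × Fin 2 => V) ℚ_[ℓ])
    (hφ : ∀ X ∈ lieT ρ χ, Kills X φ) : IsTateTensor ρ χ m φ := by
  classical
  let M : Γ →* Matrix (Fin n) (Fin n) ℚ_[ℓ] := (mat b : Module.End ℚ_[ℓ] V →* _).comp ρ
  have hMs : ∀ s, M s = mat b (ρ s) := fun s => rfl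
  obtain ⟨Δ, hΔ, hnear⟩ := exists_near M χ (by
    intro i j
    have h1 : (fun s => M s i j) = fun s => (b.coord i) (ρ s (b j)) := by
      funext s
      rw [hMs]
      exact LinearMap.toMatrixAlgEquiv_apply b (ρ s) i j
    rw [h1]
    exact hρ (b j) (b.coord i)) hχ
  refine ⟨Δ, hΔ, fun s hs v => ?_⟩
  obtain ⟨h1, h2⟩ := hnear s hs
  obtain ⟨f, Y₀, y₀, hlog⟩ := exists_isLog (M s) (χ s) h1 h2
  set Y : Module.End ℚ_[ℓ] V := (mat b).symm Y₀ with hY
  have hY₀ : Y₀ = mat b Y := by rw [hY, AlgEquiv.apply_symm_apply]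
  have hmem := log_mem b ρ χ s (f := f) (Y := Y) (y := y₀) (by rw [← hMs, ← hY₀]; exact hlog)
  have h3 := hlog.inv h1 h2 (coordForm b φ) m (by
    intro u
    have h4 := hφ _ hmem (fun l => b.equivFun.symm (u l))
    have h7 : ∀ j, φ (Function.update (fun l => b.equivFun.symm (u l)) j
        ((Y - (y₀ / 2) • (1 : Module.End ℚ_[ℓ] V)) (b.equivFun.symm (u j)))) =
        φ (Function.update (fun l => b.equivFun.symm (u l)) j (Y (b.equivFun.symm (u j)))) -
          y₀ / 2 * φ (fun l => b.equivFun.symm (u l)) := by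
      intro j
      have h8 : Function.update (fun l => b.equivFun.symm (u l)) j (b.equivFun.symm (u j)) =
          fun l => b.equivFun.symm (u l) :=
        Function.update_eq_self j (fun l => b.equivFun.symm (u l))
      rw [LinearMap.sub_apply, LinearMap.smul_apply, Module.End.one_apply,
        MultilinearMap.map_update_sub, MultilinearMap.map_update_smul, h8, smul_eq_mul]
    rw [Finset.sum_congr rfl fun j _ => h7 j, Finset.sum_sub_distrib, Finset.sum_const,
      Finset.card_univ, Fintype.card_prod, Fintype.card_fin, Fintype.card_fin, nsmul_eq_mul] at h4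
    rw [hY₀, Finset.sum_congr rfl fun j _ => coordForm_update b φ Y u j, coordForm_apply]
    push_cast at h4
    linear_combination h4) (fun l => b.equivFun (v l))
  rw [hMs, coordForm_mat, coordForm_apply] at h3
  simp only [LinearEquiv.symm_apply_apply] at h3
  exact h3

end Pool.Agent.TH30.QF
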