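import Mathlib
import Pool.Agent.TH30.MT.Fin
import Pool.Agent.TH30.QF.Tate

/-!
# Systems of `ℓ`-adic representations of an abelian variety: definitions

`W = H₁(A(ℂ), ℚ)`, `T` is the tangent space of the abelian variety `A` at the origin, `per : W → T`
the inclusion, `ω₀` a polarization, `Γ` the absolute Galois group of the field of definition.
-/

namespace Pool.Agent.TH30.QF

open Module TensorProduct Pool.Agent.H204R3.SP Pool.Agent.H204R3.GP Pool.Agent.W516.MTD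
  Pool.Agent.TH30.MT

noncomputable section

variable {W T : Type} [AddCommGroup W] [Module ℚ W] [AddCommGroup T] [Module ℂ T]

/-- The rational Tate module `V_ℓ = ℚ_ℓ ⊗ W` of the abelian variety with the action `ρ` of the
Galois group, the cyclotomic character `χ` and the Weil pairing `ω` (the extension of `ω₀`), with
known properties: continuity, the theorems of Faltings on endomorphisms and on semisimplicity, the
theorem of Deligne (Hodge classes are Tate classes) and the theorem on the centres. -/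
structure TateData (per : W →+ T) (ω₀ : W →ₗ[ℚ] W →ₗ[ℚ] ℚ) (Γ : Type) [Group Γ]
    [TopologicalSpace Γ] (ℓ : ℕ) [Fact ℓ.Prime] where
  /-- the Galois representation -/
  ρ : Representation ℚ_[ℓ] Γ (ℚ_[ℓ] ⊗[ℚ] W)
  /-- the cyclotomic character -/
  χ : Γ →* ℚ_[ℓ]
  /-- the Weil pairing -/
  ω : ℚ_[ℓ] ⊗[ℚ] W →ₗ[ℚ_[ℓ]] ℚ_[ℓ] ⊗[ℚ] W →ₗ[ℚ_[ℓ]] ℚ_[ℓ]
  continuous_rep : ∀ (v : ℚ_[ℓ] ⊗[ℚ] W) (f : ℚ_[ℓ] ⊗[ℚ] W →ₗ[ℚ_[ℓ]] ℚ_[ℓ]),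
    Continuous fun s => f (ρ s v)
  continuous_char : Continuous χ
  pairing : ∀ u v : W,
    ω ((1 : ℚ_[ℓ]) ⊗ₜ[ℚ] u) ((1 : ℚ_[ℓ]) ⊗ₜ[ℚ] v) = algebraMap ℚ ℚ_[ℓ] (ω₀ u v)
  equivariant : ∀ s u v, ω (ρ s u) (ρ s v) = χ s * ω u v
  faltings : Faltings per ρ
  semisimple : Semisimple ρ
  deligne : Deligne per ρ χ
  centres : Centres per ρ χ

variable {per : W →+ T} {ω₀ : W →ₗ[ℚ] W →ₗ[ℚ] ℚ} {Γ : Type} [Group Γ] [TopologicalSpace Γ]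
  (D : ∀ (ℓ : ℕ) [Fact ℓ.Prime], TateData per ω₀ Γ ℓ) (ℓ₀ : ℕ)

/-- `φ` is the extension of the rational form `ψ`. -/
def Extends {ℓ : ℕ} [Fact ℓ.Prime] {κ : Type} (φ : MultilinearMap ℚ_[ℓ] (fun _ : κ => ℚ_[ℓ] ⊗[ℚ] W) ℚ_[ℓ])
    (ψ : MultilinearMap ℚ (fun _ : κ => W) ℚ) : Prop :=
  ∀ v : κ → W, φ (fun l => (1 : ℚ_[ℓ]) ⊗ₜ[ℚ] v l) = algebraMap ℚ ℚ_[ℓ] (ψ v)

/-- The rational form `ψ` is a Tate class for all primes `ℓ ≥ ℓ₀`. -/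
def IsCommonTate {m : ℕ} (ψ : MultilinearMap ℚ (fun _ : Fin m × Fin 2 => W) ℚ) : Prop :=
  ∀ (ℓ : ℕ) [Fact ℓ.Prime], ℓ₀ ≤ ℓ → ∀ φ, Extends φ ψ → IsTateTensor (D ℓ).ρ (D ℓ).χ m φ

/-- The form `φ` on `V_ℓ` is a linear combination with coefficients in `ℚ_ℓ` of rational forms which
are Tate classes for all primes `ℓ' ≥ ℓ₀`. -/
def IsCommonCombination {ℓ : ℕ} [Fact ℓ.Prime] {m : ℕ}
    (φ : MultilinearMap ℚ_[ℓ] (fun _ : Fin m × Fin 2 => ℚ_[ℓ] ⊗[ℚ] W) ℚ_[ℓ]) : Prop :=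
  φ ∈ Submodule.span ℚ_[ℓ] {φ' | ∃ ψ, IsCommonTate D ℓ₀ ψ ∧ Extends φ' ψ}

/-- For all primes `ℓ ≥ ℓ₀` all Tate classes, of all degrees, are linear combinations of common
rational Tate classes: the connected `ℓ`-adic monodromy groups come from one group over `ℚ`. -/
def TateClassesCommon : Prop :=
  ∀ (ℓ : ℕ) [Fact ℓ.Prime], ℓ₀ ≤ ℓ → ∀ (m : ℕ)
    (φ : MultilinearMap ℚ_[ℓ] (fun _ : Fin m × Fin 2 => ℚ_[ℓ] ⊗[ℚ] W) ℚ_[ℓ]),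
    IsTateTensor (D ℓ).ρ (D ℓ).χ m φ → IsCommonCombination D ℓ₀ φ

/-- The Lie algebras of the endomorphisms of `V_ℓ` which kill all Tate classes come, for all primes
`ℓ ≥ ℓ₀`, from one space of endomorphisms of `W`. -/
def LieAlgebrasCommon : Prop :=
  ∃ 𝔤 : Submodule ℚ (Module.End ℚ W), ∀ (ℓ : ℕ) [Fact ℓ.Prime], ℓ₀ ≤ ℓ →
    Submodule.span ℚ_[ℓ] ((fun Z : Module.End ℚ W => Z.baseChange ℚ_[ℓ]) '' 𝔤) =
      lieT (D ℓ).ρ (D ℓ).χ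

/-- For all primes `ℓ ≥ ℓ₀` the Casimir class is a linear combination of quartic rational forms
which are Tate classes for all primes `≥ ℓ₀`. -/
def CasimirCommon : Prop :=
  ∀ (ℓ : ℕ) [Fact ℓ.Prime], ℓ₀ ≤ ℓ →
    ∃ Θ, IsCasimir (D ℓ).ρ (D ℓ).χ (D ℓ).ω Θ ∧ IsCommonCombination D ℓ₀ (m := 2) Θ

/-- For all primes `ℓ ≥ ℓ₀` the Casimir class is the extension of one rational quartic form, the
same for all `ℓ`. -/
def CasimirRational : Prop :=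
  ∃ Θ₀ : MultilinearMap ℚ (fun _ : Fin 2 × Fin 2 => W) ℚ, ∀ (ℓ : ℕ) [Fact ℓ.Prime], ℓ₀ ≤ ℓ →
    ∃ Θ, IsCasimir (D ℓ).ρ (D ℓ).χ (D ℓ).ω Θ ∧ Extends Θ Θ₀

end

end Pool.Agent.TH30.QF
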