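import Mathlib
import Pool.Agent.TH30.QF.Defs

/-!
# A common `ℚ`-form and quartic forms
-/

set_option linter.unusedSectionVars false

namespace Pool.Agent.TH30.QF

open Module TensorProduct Pool.Agent.H204R3.SP Pool.Agent.H204R3.GP Pool.Agent.W516.KC
  Pool.Agent.W516.MTD Pool.Agent.W516.DR Pool.Agent.W516.MTM Pool.Agent.TH30.MT

noncomputable section

/-- The endomorphisms that kill a form. -/
def killSub {k V κ : Type} [Field k] [AddCommGroup V] [Module k V] [Fintype κ] [DecidableEq κ]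
    (φ : MultilinearMap k (fun _ : κ => V) k) : Submodule k (Module.End k V) where
  carrier := {X | Kills X φ}
  zero_mem' := by
    intro v
    refine Finset.sum_eq_zero fun k _ => ?_
    rw [LinearMap.zero_apply]
    exact φ.map_coord_zero k (Function.update_self _ _ _)
  add_mem' := by
    intro X Y hX hY v
    have h1 := hX v
    have h2 := hY v
    have h3 := congrArg₂ (fun x y : k => x + y) h1 h2
    simp only [add_zero] at h3
    rw [← h3, ← Finset.sum_add_distrib]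
    refine Finset.sum_congr rfl fun k _ => ?_
    rw [LinearMap.add_apply, MultilinearMap.map_update_add]
  smul_mem' := by
    intro c X hX v
    have h1 := hX v
    rw [← mul_zero c, ← h1, Finset.mul_sum]
    refine Finset.sum_congr rfl fun k _ => ?_
    rw [LinearMap.smul_apply, MultilinearMap.map_update_smul, smul_eq_mul]

theorem mem_killSub {k V κ : Type} [Field k] [AddCommGroup V] [Module k V] [Fintype κ]
    [DecidableEq κ] (φ : MultilinearMap k (fun _ : κ => V) k) (X : Module.End k V) :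
    X ∈ killSub φ ↔ Kills X φ := Iff.rfl

variable {W T : Type} [AddCommGroup W] [Module ℚ W] [FiniteDimensional ℚ W] [AddCommGroup T]
  [Module ℂ T] {per : W →+ T} {ω₀ : W →ₗ[ℚ] W →ₗ[ℚ] ℚ} {Γ : Type} [Group Γ] [TopologicalSpace Γ]
  [IsTopologicalGroup Γ] [CompactSpace Γ]
  (D : ∀ (ℓ : ℕ) [Fact ℓ.Prime], TateData per ω₀ Γ ℓ) (ℓ₀ : ℕ)
  (hper : Pool.Agent.W516.MTD.IsRationalStructure per) (hR : IsRiemannForm per ω₀)

/-- Hodge classes are common Tate classes. -/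
theorem hodge_common {m : ℕ} {ψ : MultilinearMap ℚ (fun _ : Fin m × Fin 2 => W) ℚ}
    (h : IsHodgeTensor per ψ) : IsCommonTate D ℓ₀ ψ := fun ℓ _ _ φ hφ =>
  (D ℓ).deligne m ψ h φ fun v => by rw [hφ v, eq_ratCast]

/-- The endomorphisms of `W` that kill all common Tate classes. -/
def lie0 : Submodule ℚ (Module.End ℚ W) :=
  ⨅ (m : ℕ) (ψ : MultilinearMap ℚ (fun _ : Fin m × Fin 2 => W) ℚ) (_ : IsCommonTate D ℓ₀ ψ),
    killSub ψ

theorem mem_lie0 (Z : Module.End ℚ W) : Z ∈ lie0 D ℓ₀ ↔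
    ∀ (m : ℕ) (ψ : MultilinearMap ℚ (fun _ : Fin m × Fin 2 => W) ℚ), IsCommonTate D ℓ₀ ψ →
      Kills Z ψ := by
  simp only [lie0, Submodule.mem_iInf, mem_killSub]

include hper hR in
theorem nt (ℓ : ℕ) [Fact ℓ.Prime] :
    Pool.Agent.W516.KC2.TraceNondeg (lieT (D ℓ).ρ (D ℓ).χ) :=
  hnt per (D ℓ).ρ (D ℓ).χ (D ℓ).continuous_rep (D ℓ).continuous_char ω₀ (D ℓ).ω hper hR
    (D ℓ).pairing (D ℓ).equivariant (D ℓ).deligne (D ℓ).faltings (D ℓ).semisimple (D ℓ).centres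

include hper hR in
theorem casimir_tate (ℓ : ℕ) [Fact ℓ.Prime]
    {Θ : MultilinearMap ℚ_[ℓ] (fun _ : Fin 2 × Fin 2 => ℚ_[ℓ] ⊗[ℚ] W) ℚ_[ℓ]}
    (hΘ : IsCasimir (D ℓ).ρ (D ℓ).χ (D ℓ).ω Θ) : IsTateTensor (D ℓ).ρ (D ℓ).χ 2 Θ :=
  ((main per (D ℓ).ρ (D ℓ).χ (D ℓ).continuous_rep (D ℓ).continuous_char ω₀ (D ℓ).ω hper hR
    (D ℓ).pairing (D ℓ).equivariant (D ℓ).deligne (D ℓ).faltings (D ℓ).semisimple
    (D ℓ).centres).2 Θ hΘ).1

/-- Two extensions of a form agree. -/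
theorem ext_unique {ℓ : ℕ} [Fact ℓ.Prime] {κ : Type} [Fintype κ] [DecidableEq κ]
    {φ φ' : MultilinearMap ℚ_[ℓ] (fun _ : κ => ℚ_[ℓ] ⊗[ℚ] W) ℚ_[ℓ]}
    {ψ : MultilinearMap ℚ (fun _ : κ => W) ℚ} (h : Extends φ ψ) (h' : Extends φ' ψ) : φ = φ' := by
  refine Basis.ext_multilinear (fun _ => (Module.finBasis ℚ W).baseChange ℚ_[ℓ]) fun I => ?_
  have h2 : (fun l => (Module.finBasis ℚ W).baseChange ℚ_[ℓ] (I l)) =
      fun l => (1 : ℚ_[ℓ]) ⊗ₜ[ℚ] (Module.finBasis ℚ W) (I l) := by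
    funext l
    rw [Basis.baseChange_apply]
  rw [h2, h, h']

include hper hR in
/-- The main step. -/
theorem lie_of_casimir (h : CasimirCommon D ℓ₀) : LieAlgebrasCommon D ℓ₀ := by
  refine ⟨lie0 D ℓ₀, fun ℓ _ hℓ => ?_⟩
  apply le_antisymm
  · rw [Submodule.span_le]
    rintro _ ⟨Z₀, hZ, rfl⟩
    change Z₀.baseChange ℚ_[ℓ] ∈ lieT (D ℓ).ρ (D ℓ).χ
    have hZ' := (mem_lie0 D ℓ₀ Z₀).1 hZ
    have hk : ∀ (m' : ℕ) (ψ : MultilinearMap ℚ (fun _ : Fin m' × Fin 2 => W) ℚ),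
        IsHodgeTensor per ψ → Kills Z₀ ψ := fun m' ψ hψ => hZ' m' ψ (hodge_common D ℓ₀ hψ)
    obtain ⟨Θ, hΘ, hcomb⟩ := h ℓ hℓ
    have hnt := nt D hper hR ℓ
    have hΘe := eq_casimir _ _ _ hnt hΘ
    subst hΘe
    have hnd₀ := riemann_nondeg per ω₀ hper hR
    have hnd := nondeg_ext ω₀ (D ℓ).ω (D ℓ).pairing hnd₀
    have hRH := riemann_hodge per ω₀ hR
    have hZs : IsSkew (D ℓ).ω (Z₀.baseChange ℚ_[ℓ]) :=
      skew_ext ω₀ (D ℓ).ω (D ℓ).pairing ((kills_one2 ω₀ Z₀).1 (hk 1 _ (one2_hodge per ω₀ hRH)))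
    have hZk : Kills (Z₀.baseChange ℚ_[ℓ])
        (Pool.Agent.W516.KC2.casimir (lieT (D ℓ).ρ (D ℓ).χ) hnt (D ℓ).ω) :=
      kills_span (fun ψ => IsCommonTate D ℓ₀ (m := 2) ψ) Z₀ (hZ' 2) _ hcomb
    obtain ⟨Y, hY, hYc⟩ := Pool.Agent.W516.KC2.mem_of_kills_casimir (lieT (D ℓ).ρ (D ℓ).χ) hnt
      (D ℓ).ω (fun X hX Y hY => lieT_bracket (D ℓ).ρ (D ℓ).χ hX hY) hnd hZs hZk
    have h1 : Z₀.baseChange ℚ_[ℓ] - Y ∈ lieT (D ℓ).ρ (D ℓ).χ := by
      refine (D ℓ).centres _ (hcomm per (D ℓ).ρ (D ℓ).χ (D ℓ).continuous_rep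
        (D ℓ).continuous_char (D ℓ).faltings _ hYc) (fun P hP => ?_) (fun m φ hφ => ?_)
      · have e1 := comm_endos per ω₀ hper hR Z₀ hk hP
        have e2 := lieT_comm per (D ℓ).ρ (D ℓ).χ ω₀ (D ℓ).ω hper hR (D ℓ).pairing
          (D ℓ).equivariant (D ℓ).deligne hY hP
        refine LinearMap.ext fun z => ?_
        have e3 := congrArg (fun f : Module.End ℚ_[ℓ] (ℚ_[ℓ] ⊗[ℚ] W) => f z) e1
        have e4 := congrArg (fun f : Module.End ℚ_[ℓ] (ℚ_[ℓ] ⊗[ℚ] W) => f z) e2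
        simp only [Module.End.mul_apply] at e3 e4
        rw [Module.End.mul_apply, Module.End.mul_apply, LinearMap.sub_apply, LinearMap.sub_apply,
          map_sub, e3, e4]
      · have h2 := kills_span (fun ψ => IsHodgeTensor per ψ) Z₀ (hk m) φ ((hc_iff per φ).1 hφ)
        have h3 := lieT_hc per (D ℓ).ρ (D ℓ).χ (D ℓ).deligne hY φ hφ
        intro v
        have h4 : ∀ j, φ (Function.update v j ((Z₀.baseChange ℚ_[ℓ] - Y) (v j))) =
            φ (Function.update v j (Z₀.baseChange ℚ_[ℓ] (v j))) -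
              φ (Function.update v j (Y (v j))) := by
          intro j
          rw [LinearMap.sub_apply, MultilinearMap.map_update_sub]
        rw [Finset.sum_congr rfl (fun j _ => h4 j), Finset.sum_sub_distrib, h2 v, h3 v, sub_zero]
    have h2 : Z₀.baseChange ℚ_[ℓ] = (Z₀.baseChange ℚ_[ℓ] - Y) + Y := by abel
    rw [h2]
    exact Submodule.add_mem _ h1 hY
  · intro X hX
    have h1 : X ∈ extEnd ℚ_[ℓ] (fun Z : Module.End ℚ W => Z ∈ lie0 D ℓ₀) := by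
      refine end_mem_span _ X fun lam => ?_
      rw [mem_lie0]
      intro m ψ hψ
      refine (kills_bcm_iff (finBasis ℚ W) ψ X).1 ?_ lam
      exact hX m _ (hψ ℓ hℓ _ fun v => bcm_one (finBasis ℚ W) ψ v)
    refine Submodule.span_mono ?_ h1
    rintro _ ⟨P, hP, rfl⟩
    exact ⟨P, hP, rfl⟩

/-- Tate classes are common if the Lie algebras are. -/
theorem tate_of_lie (h : LieAlgebrasCommon D ℓ₀) : TateClassesCommon D ℓ₀ := by
  obtain ⟨𝔤, h𝔤⟩ := h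
  intro ℓ _ hℓ m φ hφ
  refine form_mem_span (fun ψ => IsCommonTate D ℓ₀ ψ) φ fun lam => ?_
  have h1 : ∀ Z ∈ 𝔤, Kills Z (fcmp lam φ) := by
    intro Z hZ
    refine kills_fcmp lam φ Z ?_
    have h2 : Z.baseChange ℚ_[ℓ] ∈ lieT (D ℓ).ρ (D ℓ).χ := by
      rw [← h𝔤 ℓ hℓ]
      exact Submodule.subset_span ⟨Z, hZ, rfl⟩
    exact h2 m φ hφ
  intro ℓ' _ hℓ' φ' hφ'
  refine tate_of_kills (Module.finBasis ℚ_[ℓ'] (ℚ_[ℓ'] ⊗[ℚ] W)) (D ℓ').ρ (D ℓ').χ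
    (D ℓ').continuous_rep (D ℓ').continuous_char φ' fun X hX => ?_
  rw [← h𝔤 ℓ' hℓ'] at hX
  have h3 : Submodule.span ℚ_[ℓ'] ((fun Z : Module.End ℚ W => Z.baseChange ℚ_[ℓ']) '' 𝔤) ≤
      killSub φ' := by
    rw [Submodule.span_le]
    rintro _ ⟨Z, hZ, rfl⟩
    exact kills_ext φ' (fcmp lam φ) hφ' Z (h1 Z hZ)
  exact h3 hX

include hper hR in
theorem casimir_of_tate (h : TateClassesCommon D ℓ₀) : CasimirCommon D ℓ₀ := by
  intro ℓ _ hℓ
  obtain ⟨Θ, hΘ⟩ := exists_isCasimir (D ℓ).ρ (D ℓ).χ (D ℓ).ω (nt D hper hR ℓ)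
  exact ⟨Θ, hΘ, h ℓ hℓ 2 Θ (casimir_tate D hper hR ℓ hΘ)⟩

include hper hR in
theorem common_of_rational (h : CasimirRational D ℓ₀) : CasimirCommon D ℓ₀ := by
  obtain ⟨Θ₀, hΘ₀⟩ := h
  intro ℓ _ hℓ
  obtain ⟨Θ, hΘ, hext⟩ := hΘ₀ ℓ hℓ
  refine ⟨Θ, hΘ, Submodule.subset_span ⟨Θ₀, fun ℓ' _ hℓ' φ hφ => ?_, hext⟩⟩
  obtain ⟨Θ', hΘ', hext'⟩ := hΘ₀ ℓ' hℓ'
  rw [ext_unique hφ hext']
  exact casimir_tate D hper hR ℓ' hΘ'

include hper hR in
theorem rational_of_lie (h : LieAlgebrasCommon D ℓ₀) : CasimirRational D ℓ₀ := by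
  classical
  obtain ⟨𝔤, h𝔤⟩ := h
  have hbc : ∀ (ℓ : ℕ) [Fact ℓ.Prime] (X Y : Module.End ℚ W),
      LinearMap.trace ℚ_[ℓ] _ (X.baseChange ℚ_[ℓ] * Y.baseChange ℚ_[ℓ]) =
        algebraMap ℚ ℚ_[ℓ] (LinearMap.trace ℚ W (X * Y)) := by
    intro ℓ _ X Y
    rw [← LinearMap.baseChange_mul, LinearMap.trace_baseChange]
  have hnt0 : Pool.Agent.W516.KC2.TraceNondeg 𝔤 := by
    intro X hX htr
    obtain ⟨ℓ, hℓ, hp⟩ := Nat.exists_infinite_primes ℓ₀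
    have : Fact ℓ.Prime := ⟨hp⟩
    have h1 : X.baseChange ℚ_[ℓ] ∈ lieT (D ℓ).ρ (D ℓ).χ := by
      rw [← h𝔤 ℓ hℓ]
      exact Submodule.subset_span ⟨X, hX, rfl⟩
    have h2 := nt D hper hR ℓ _ h1 (fun Z hZ => by
      rw [← h𝔤 ℓ hℓ] at hZ
      induction hZ using Submodule.span_induction with
      | mem Z h =>
        obtain ⟨Y, hY, rfl⟩ := h
        change LinearMap.trace ℚ_[ℓ] _ (X.baseChange ℚ_[ℓ] * Y.baseChange ℚ_[ℓ]) = 0
        rw [hbc, htr Y hY, map_zero]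
      | zero => rw [mul_zero, map_zero]
      | add a b _ _ ha hb => rw [mul_add, map_add, ha, hb, add_zero]
      | smul c a _ ha => rw [mul_smul_comm, map_smul, ha, smul_zero])
    refine LinearMap.ext fun w => ?_
    have h3 := congrArg (fun f : Module.End ℚ_[ℓ] (ℚ_[ℓ] ⊗[ℚ] W) => f ((1 : ℚ_[ℓ]) ⊗ₜ[ℚ] w)) h2
    simp only [LinearMap.baseChange_tmul, LinearMap.zero_apply] at h3
    apply (Module.finBasis ℚ W).repr.injective
    ext i
    have h5 := congrArg (fun z => ((Module.finBasis ℚ W).baseChange ℚ_[ℓ]).repr z i) h3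
    simp only [Basis.baseChange_repr_tmul, map_zero, Finsupp.zero_apply] at h5
    rw [Algebra.smul_def, mul_one, map_eq_zero] at h5
    rw [h5, LinearMap.zero_apply, map_zero, Finsupp.zero_apply]
  let d := finrank ℚ 𝔤
  let X : Fin d → Module.End ℚ W := fun i => (Module.finBasis ℚ 𝔤 i).1
  let Y : Fin d → Module.End ℚ W := fun i =>
    ((Pool.Agent.W516.KC2.trE 𝔤 hnt0).symm ((Module.finBasis ℚ 𝔤).coord i)).1
  have hXY : ∀ i j, LinearMap.trace ℚ W (X i * Y j) = if i = j then 1 else 0 := by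
    intro i j
    change LinearMap.trace ℚ W ((Module.finBasis ℚ 𝔤 i).1 *
      ((Pool.Agent.W516.KC2.trE 𝔤 hnt0).symm ((Module.finBasis ℚ 𝔤).coord j)).1) = _
    rw [LinearMap.trace_mul_comm, Pool.Agent.W516.KC2.trE_symm, Basis.coord_apply,
      Basis.repr_self, Finsupp.single_apply]
  refine ⟨Pool.Agent.W516.KC2.casimir 𝔤 hnt0 ω₀, fun ℓ _ hℓ => ?_⟩
  refine ⟨∑ i, mmG (1 : Equiv.Perm (Fin 2 × Fin 2)) (fun l : Fin 2 =>
    if l = 0 then (D ℓ).ω.comp ((X i).baseChange ℚ_[ℓ]) else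
      (D ℓ).ω.comp ((Y i).baseChange ℚ_[ℓ])), ⟨d, fun i => (X i).baseChange ℚ_[ℓ],
      fun i => (Y i).baseChange ℚ_[ℓ], ?_, ?_, ?_, ?_⟩, ?_⟩
  · rw [← h𝔤 ℓ hℓ]
    apply le_antisymm
    · rw [Submodule.span_le]
      rintro _ ⟨i, rfl⟩
      exact Submodule.subset_span ⟨X i, (Module.finBasis ℚ 𝔤 i).2, rfl⟩
    · rw [Submodule.span_le]
      rintro _ ⟨Z, hZ, rfl⟩
      have h1 := (Module.finBasis ℚ 𝔤).sum_repr ⟨Z, hZ⟩
      have h2 := congrArg Subtype.val h1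
      simp only [Submodule.coe_sum, Submodule.coe_smul] at h2
      change Z.baseChange ℚ_[ℓ] ∈ Submodule.span ℚ_[ℓ] (Set.range fun i => (X i).baseChange ℚ_[ℓ])
      have h4 : Z.baseChange ℚ_[ℓ] = LinearMap.baseChangeHom ℚ ℚ_[ℓ] W W Z := rfl
      rw [h4, ← h2, map_sum]
      refine Submodule.sum_mem _ fun i _ => ?_
      rw [map_smul]
      change ((Module.finBasis ℚ 𝔤).repr ⟨Z, hZ⟩ i) •
          ((Module.finBasis ℚ 𝔤 i).1).baseChange ℚ_[ℓ] ∈ _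
      have h3 : ((Module.finBasis ℚ 𝔤).repr ⟨Z, hZ⟩ i) •
          ((Module.finBasis ℚ 𝔤 i).1).baseChange ℚ_[ℓ] =
          (algebraMap ℚ ℚ_[ℓ] ((Module.finBasis ℚ 𝔤).repr ⟨Z, hZ⟩ i)) •
            (X i).baseChange ℚ_[ℓ] := by
        rw [algebraMap_smul]
      rw [h3]
      exact Submodule.smul_mem _ _ (Submodule.subset_span ⟨i, rfl⟩)
  · intro i
    rw [← h𝔤 ℓ hℓ]
    exact Submodule.subset_span ⟨Y i,
      ((Pool.Agent.W516.KC2.trE 𝔤 hnt0).symm ((Module.finBasis ℚ 𝔤).coord i)).2, rfl⟩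
  · intro i j
    rw [hbc, hXY]
    split_ifs
    · rw [map_one]
    · rw [map_zero]
  · intro v
    rw [sum_apply]
    refine Finset.sum_congr rfl fun a _ => ?_
    rw [mmG_apply, Fin.prod_univ_two, if_pos rfl, if_neg (by decide)]
    rfl
  · intro v
    rw [sum_apply]
    unfold Pool.Agent.W516.KC2.casimir
    rw [sum_apply, map_sum]
    refine Finset.sum_congr rfl fun a _ => ?_
    rw [mmG_apply, mmG_apply, Fin.prod_univ_two, Fin.prod_univ_two, if_pos rfl, if_neg (by decide),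
      if_pos rfl, if_neg (by decide), map_mul]
    simp only [LinearMap.comp_apply, LinearMap.baseChange_tmul, (D ℓ).pairing]
    rfl

include hper hR in
theorem tfae : List.TFAE [TateClassesCommon D ℓ₀, LieAlgebrasCommon D ℓ₀, CasimirCommon D ℓ₀,
    CasimirRational D ℓ₀] := by
  tfae_have 1 → 3 := casimir_of_tate D ℓ₀ hper hR
  tfae_have 3 → 2 := lie_of_casimir D ℓ₀ hper hR
  tfae_have 2 → 1 := tate_of_lie D ℓ₀
  tfae_have 2 → 4 := rational_of_lie D ℓ₀ hper hR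
  tfae_have 4 → 3 := common_of_rational D ℓ₀ hper hR
  tfae_finish

end

end Pool.Agent.TH30.QF
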